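import Pool.Agent.Q250.Tenth2

/-!
MP_10d431_nt, Q1: the values of `S_p` at the primitive tenth roots of unity for
`p ≡ 21, 29 (mod 40)`.
-/

set_option autoImplicit false

namespace Pool.Agent.Results.MP_10d431_nt.TenthRoots

/-- `S_p(x) = ∏_{k=1}^{(p-1)/2} (x - e^{2πi k²/p})`. -/
noncomputable def Sp (p : ℕ) (x : ℂ) : ℂ :=
  ∏ k ∈ Finset.Icc 1 ((p - 1) / 2), (x - Complex.exp (2 * Real.pi * Complex.I * (k : ℂ) ^ 2 / p))

/-- `n_p(N) = #{1 ≤ k ≤ N : (k/p) = -1}` (for a natural number `N`). -/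
def np (p N : ℕ) : ℕ := ((Finset.Icc 1 N).filter (fun k : ℕ => jacobiSym (k : ℤ) p = -1)).card

open Q250.Tenth

theorem sq_one : IsSquare ((1 : ℕ) : ZMod 5) := ⟨1, rfl⟩

theorem sq_four : IsSquare ((4 : ℕ) : ZMod 5) := ⟨2, rfl⟩

section

variable {p : ℕ} [hp : Fact p.Prime]

theorem char_facts (h8 : p % 8 = 5) (h5 : p % 5 = 1 ∨ p % 5 = 4) :
    quadraticChar (ZMod p) (-1) = 1 ∧ quadraticChar (ZMod p) 2 = -1 ∧
      quadraticChar (ZMod p) 5 = 1 := by
  have hp2 := hp.out.two_le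
  have hne : ∀ n : ℕ, 0 < n → n < p → (n : ZMod p) ≠ 0 := by
    intro n h1 h2 h
    rw [ZMod.natCast_eq_zero_iff] at h
    have := Nat.le_of_dvd h1 h
    omega
  have hp5 : 5 < p := by
    rcases h5 with h | h <;> omega
  refine ⟨?_, ?_, ?_⟩
  · rw [quadraticChar_one_iff_isSquare (neg_ne_zero.2 one_ne_zero), ZMod.exists_sq_eq_neg_one_iff]
    omega
  · rw [quadraticChar_neg_one_iff_not_isSquare, ZMod.exists_sq_eq_two_iff (by omega)]
    omega
  · have h50 : (5 : ZMod p) ≠ 0 := by exact_mod_cast hne 5 (by norm_num) hp5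
    rw [quadraticChar_one_iff_isSquare h50]
    have : Fact (Nat.Prime 5) := ⟨by norm_num⟩
    have h := ZMod.exists_sq_eq_prime_iff_of_mod_four_eq_one (p := p) (q := 5) (by omega)
      (by norm_num)
    have h' : IsSquare ((5 : ℕ) : ZMod p) := by
      rw [h]
      have e1 : (p : ZMod 5) = ((p % 5 : ℕ) : ZMod 5) := by simp
      rw [e1]
      rcases h5 with h | h
      · rw [h]; exact sq_one
      · rw [h]; exact sq_four
    exact_mod_cast h'

theorem prim_five {ζ : ℂ} (hζ : IsPrimitiveRoot ζ 10) : IsPrimitiveRoot (-ζ) 5 ∧ ζ ^ 5 = -1 := by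
  have h10 := hζ.pow_eq_one
  have h5 : ζ ^ 5 = -1 := by
    have h1 : (ζ ^ 5 - 1) * (ζ ^ 5 + 1) = 0 := by linear_combination h10
    rcases mul_eq_zero.1 h1 with h | h
    · have := hζ.dvd_of_pow_eq_one 5 (by linear_combination h)
      omega
    · linear_combination h
  refine ⟨?_, h5⟩
  have : Fact (Nat.Prime 5) := ⟨by norm_num⟩
  have ho : orderOf (-ζ) = 5 := by
    apply orderOf_eq_prime
    · rw [neg_pow, h5]; norm_num
    · intro h
      have h2 : ζ ^ 2 = 1 := by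
        have : ζ = -1 := by linear_combination -h
        rw [this]; norm_num
      have := hζ.dvd_of_pow_eq_one 2 h2
      omega
  have := IsPrimitiveRoot.orderOf (-ζ)
  rwa [ho] at this

theorem golden {ζ : ℂ} (hζ : IsPrimitiveRoot ζ 10) :
    ζ + ζ⁻¹ = ((2 * ζ.re : ℝ) : ℂ) ∧ (2 * ζ.re) ^ 2 - 2 * ζ.re - 1 = 0 := by
  obtain ⟨h5, h5'⟩ := prim_five hζ
  have hnorm : ‖ζ‖ = 1 := hζ.norm'_eq_one (by norm_num)
  have h1 : ζ + ζ⁻¹ = ((2 * ζ.re : ℝ) : ℂ) := by
    rw [Complex.inv_eq_conj hnorm, Complex.add_conj]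
  refine ⟨h1, ?_⟩
  have hζ0 : ζ ≠ 0 := by intro h; rw [h] at hnorm; simp at hnorm
  have hs : ζ ^ 4 - ζ ^ 3 + ζ ^ 2 - ζ + 1 = 0 := by
    have hne : ζ + 1 ≠ 0 := by
      intro h
      apply h5.ne_one (by norm_num)
      linear_combination -h
    have h2 : (ζ + 1) * (ζ ^ 4 - ζ ^ 3 + ζ ^ 2 - ζ + 1) = 0 := by linear_combination h5'
    exact (mul_eq_zero.1 h2).resolve_left hne
  have h2 : (((2 * ζ.re : ℝ) : ℂ)) ^ 2 - ((2 * ζ.re : ℝ) : ℂ) - 1 = 0 := by
    rw [← h1]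
    have : ζ ^ 2 * ((ζ + ζ⁻¹) ^ 2 - (ζ + ζ⁻¹) - 1) = 0 := by
      have h3 : ζ * ζ⁻¹ = 1 := mul_inv_cancel₀ hζ0
      calc ζ ^ 2 * ((ζ + ζ⁻¹) ^ 2 - (ζ + ζ⁻¹) - 1)
          = ζ ^ 4 + 2 * ζ ^ 2 * (ζ * ζ⁻¹) + (ζ * ζ⁻¹) ^ 2 - ζ ^ 3 - ζ * (ζ * ζ⁻¹) - ζ ^ 2 := by ring
        _ = ζ ^ 4 - ζ ^ 3 + ζ ^ 2 - ζ + 1 := by rw [h3]; ring
        _ = 0 := hs
    exact (mul_eq_zero.1 this).resolve_left (pow_ne_zero 2 hζ0)
  exact_mod_cast h2

theorem abs_Q (h8 : p % 8 = 5) (h5 : p % 5 = 1 ∨ p % 5 = 4) {ζ : ℂ} (hζ : IsPrimitiveRoot ζ 10) :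
    |Q p (2 * ζ.re)| = 1 := by
  obtain ⟨c1, c2, c5⟩ := char_facts h8 h5
  have h1 := norm_S_neg_fifth c1 c2 c5 h5 (prim_five hζ).1
  rw [neg_neg] at h1
  have hnorm : ‖ζ‖ = 1 := hζ.norm'_eq_one (by norm_num)
  have hζ0 : ζ ≠ 0 := by intro h; rw [h] at hnorm; simp at hnorm
  rw [S_factor (by omega) c1 hζ0 (golden hζ).1, norm_mul, norm_pow, hnorm, one_pow, one_mul,
    Complex.norm_real, Real.norm_eq_abs] at h1
  exact h1

theorem cos_facts : (2 * Real.cos (Real.pi / 5)) ^ 2 - 2 * Real.cos (Real.pi / 5) - 1 = 0 ∧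
    1 - 2 * (2 * Real.cos (Real.pi / 5)) = - Real.sqrt 5 := by
  have h := Real.cos_pi_div_five
  constructor
  · rw [h]
    have := Real.sq_sqrt (show (0 : ℝ) ≤ 5 by norm_num)
    ring_nf
    rw [this]; norm_num
  · rw [h]; ring

theorem prim_std : IsPrimitiveRoot (Complex.exp (2 * Real.pi * Complex.I / (10 : ℕ))) 10 ∧
    2 * (Complex.exp (2 * Real.pi * Complex.I / (10 : ℕ))).re = 2 * Real.cos (Real.pi / 5) := by
  refine ⟨Complex.isPrimitiveRoot_exp 10 (by norm_num), ?_⟩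
  have : (2 * Real.pi * Complex.I / (10 : ℕ) : ℂ) = ((Real.pi / 5 : ℝ) : ℂ) * Complex.I := by
    push_cast; ring
  rw [this, Complex.exp_ofReal_mul_I_re]

theorem integral_re {ζ : ℂ} (hζ : IsPrimitiveRoot ζ 10) : IsIntegral ℤ ((2 * ζ.re : ℝ) : ℂ) := by
  rw [← (golden hζ).1]
  exact (hζ.isIntegral (by norm_num)).add (hζ.inv.isIntegral (by norm_num))

theorem Q_eq (h8 : p % 8 = 5) (h5 : p % 5 = 1 ∨ p % 5 = 4) {ζ : ℂ} (hζ : IsPrimitiveRoot ζ 10) :
    Q p (2 * ζ.re) = (-1) ^ cnt p := by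
  have hstd := prim_std
  have habs1 := abs_Q (p := p) h8 h5 hstd.1
  rw [hstd.2] at habs1
  have hs := Q_sign (p := p) (by omega) habs1
  have habs := abs_Q (p := p) h8 h5 hζ
  have hg := (golden hζ).2
  obtain ⟨hc1, hc2⟩ := cos_facts
  set φ := 2 * Real.cos (Real.pi / 5) with hφ
  have hcase : (2 * ζ.re - φ) * (2 * ζ.re - (1 - φ)) = 0 := by linear_combination hg - hc1
  rcases mul_eq_zero.1 hcase with h | h
  · have : 2 * ζ.re = φ := by linarith
    rw [this, hs]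
  · have hr : 2 * ζ.re = 1 - φ := by linarith
    have hint2 : IsIntegral ℤ ((φ : ℝ) : ℂ) := by
      rw [← hstd.2]; exact integral_re hstd.1
    obtain ⟨z, hz, hzz⟩ := Q_sub (p := p) (2 * ζ.re) φ (integral_re hζ) hint2
    rw [← hs]
    -- both values are `±1`
    by_contra hne
    have hneg : Q p (2 * ζ.re) = - Q p φ := by
      rcases abs_eq_abs.1 (habs.trans habs1.symm) with h' | h'
      · exact absurd h' hne
      · exact h'
    have hsq : ((Real.sqrt 5 : ℝ) : ℂ) * z = 2 * ((Q p φ : ℝ) : ℂ) := by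
      have e1 : ((2 * ζ.re : ℝ) : ℂ) - ((φ : ℝ) : ℂ) = -((Real.sqrt 5 : ℝ) : ℂ) := by
        rw [← Complex.ofReal_sub, ← Complex.ofReal_neg]
        congr 1
        rw [hr]; linarith
      rw [e1, hneg] at hzz
      push_cast at hzz
      linear_combination hzz
    have hs5 : ((Real.sqrt 5 : ℝ) : ℂ) ≠ 0 := by
      rw [Ne, Complex.ofReal_eq_zero, Real.sqrt_eq_zero (by norm_num)]; norm_num
    have hz2 : z = ((2 / Real.sqrt 5 : ℝ) : ℂ) * ((Q p φ : ℝ) : ℂ) := by
      push_cast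
      field_simp
      linear_combination hsq
    apply not_integral
    rcases abs_eq (by norm_num : (0 : ℝ) ≤ 1) |>.1 habs1 with h' | h'
    · rw [h'] at hz2
      rw [show ((2 / Real.sqrt 5 : ℝ) : ℂ) = z by rw [hz2]; simp]
      exact hz
    · rw [h'] at hz2
      rw [show ((2 / Real.sqrt 5 : ℝ) : ℂ) = -z by rw [hz2]; simp]
      exact hz.neg

theorem S_value (h8 : p % 8 = 5) (h5 : p % 5 = 1 ∨ p % 5 = 4) {ζ : ℂ} (hζ : IsPrimitiveRoot ζ 10) :
    Sp p ζ = ζ ^ ((p - 1) / 4) * (-1) ^ cnt p := by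
  obtain ⟨c1, c2, c5⟩ := char_facts h8 h5
  have hnorm : ‖ζ‖ = 1 := hζ.norm'_eq_one (by norm_num)
  have hζ0 : ζ ≠ 0 := by intro h; rw [h] at hnorm; simp at hnorm
  unfold Sp
  rw [prod_sq_eq (by omega), S_factor (by omega) c1 hζ0 (golden hζ).1, Q_eq h8 h5 hζ,
    card_Rp (by omega) c1]
  push_cast
  rfl

theorem cnt_np (h8 : p % 8 = 5) (h5 : p % 5 = 1 ∨ p % 5 = 4) (m : ℕ) (hm : p / 10 = m)
    (h : 10 * (m + 1) = p + 9 ∨ 10 * (m + 1) = p + 1) :
    cnt p + np p (m + 1) = m + 1 := by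
  classical
  obtain ⟨c1, c2, c5⟩ := char_facts (p := p) h8 h5
  have hp2 := hp.out.two_le
  have hJ : ∀ k : ℕ, jacobiSym (k : ℤ) p = quadraticChar (ZMod p) (k : ZMod p) := by
    intro k
    rw [← jacobiSym.legendreSym.to_jacobiSym, legendreSym]
    push_cast
    rfl
  have hlast : jacobiSym ((m + 1 : ℕ) : ℤ) p = -1 := by
    rw [hJ]
    have h10 : quadraticChar (ZMod p) (10 : ZMod p) = -1 := by
      rw [show (10 : ZMod p) = 2 * 5 by norm_num, map_mul, c2, c5, mul_one]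
    have hprod : quadraticChar (ZMod p) ((10 : ZMod p) * ((m + 1 : ℕ) : ZMod p)) = 1 := by
      have hcast : ((10 : ZMod p) * ((m + 1 : ℕ) : ZMod p)) = ((10 * (m + 1) : ℕ) : ZMod p) := by
        push_cast; ring
      rw [hcast]
      rcases h with h | h
      · rw [h]
        have : ((p + 9 : ℕ) : ZMod p) = (3 : ZMod p) ^ 2 := by push_cast; simp; norm_num
        rw [this]
        have h3 : (3 : ZMod p) ≠ 0 := by
          have : ((3 : ℕ) : ZMod p) ≠ 0 := by
            rw [Ne, ZMod.natCast_eq_zero_iff]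
            intro hd
            have := Nat.le_of_dvd (by norm_num) hd
            omega
          exact_mod_cast this
        rw [map_pow]; exact quadraticChar_sq_one h3
      · rw [h]
        have : ((p + 1 : ℕ) : ZMod p) = 1 := by push_cast; simp
        rw [this]; simp
    rw [map_mul, h10] at hprod
    linarith
  have hnp : np p (m + 1) = np p m + 1 := by
    unfold np
    have : Finset.Icc 1 (m + 1) = insert (m + 1) (Finset.Icc 1 m) := by
      ext k; simp only [Finset.mem_Icc, Finset.mem_insert]; omega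
    rw [this, Finset.filter_insert, if_pos hlast, Finset.card_insert_of_notMem]
    intro h'
    have := (Finset.mem_Icc.1 (Finset.mem_filter.1 h').1).2
    omega
  have hcnt : cnt p = ((Finset.Icc 1 m).filter (fun k : ℕ => jacobiSym (k : ℤ) p = 1)).card := by
    unfold cnt
    symm
    refine Finset.card_bij (fun k _ => (k : ZMod p)) ?_ ?_ ?_
    · intro k hk
      rw [Finset.mem_filter, Finset.mem_Icc] at hk
      rw [Finset.mem_filter, mem_R, ← hJ, ZMod.val_natCast, Nat.mod_eq_of_lt (by omega)]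
      exact ⟨hk.2, by omega⟩
    · intro k hk l hl h'
      rw [Finset.mem_filter, Finset.mem_Icc] at hk hl
      have := (ZMod.natCast_eq_natCast_iff' k l p).1 h'
      rwa [Nat.mod_eq_of_lt (by omega), Nat.mod_eq_of_lt (by omega)] at this
    · intro a ha
      rw [Finset.mem_filter] at ha
      have ha0 := ne_zero_of_mem_R ha.1
      refine ⟨a.val, ?_, ZMod.natCast_rightInverse a⟩
      rw [Finset.mem_filter, Finset.mem_Icc, hJ, ZMod.natCast_rightInverse a]
      refine ⟨⟨?_, by omega⟩, mem_R.1 ha.1⟩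
      have : a.val ≠ 0 := by rw [Ne, ZMod.val_eq_zero]; exact ha0
      omega
  have hsplit : ((Finset.Icc 1 m).filter (fun k : ℕ => jacobiSym (k : ℤ) p = 1)).card + np p m = m := by
    have h1 := Finset.card_filter_add_card_filter_not (s := Finset.Icc 1 m)
      (fun k : ℕ => jacobiSym (k : ℤ) p = 1)
    rw [Nat.card_Icc] at h1
    have h2 : (Finset.Icc 1 m).filter (fun k : ℕ => ¬ jacobiSym (k : ℤ) p = 1) =
        (Finset.Icc 1 m).filter (fun k : ℕ => jacobiSym (k : ℤ) p = -1) := by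
      apply Finset.filter_congr
      intro k hk
      rw [Finset.mem_Icc] at hk
      have hk0 : (k : ZMod p) ≠ 0 := by
        rw [Ne, ZMod.natCast_eq_zero_iff]
        intro hd
        have := Nat.le_of_dvd (by omega) hd
        omega
      rw [hJ]
      rcases quadraticChar_dichotomy hk0 with h' | h' <;> rw [h'] <;> norm_num
    rw [h2] at h1
    unfold np
    omega
  omega

end

/-- Q1: the values of `S_p` at all primitive tenth roots of unity, for all primes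
`p ≡ 21, 29 (mod 40)`. -/
theorem result : ∀ p : ℕ, p.Prime → ∀ ζ : ℂ, IsPrimitiveRoot ζ 10 →
    (p % 40 = 21 → Sp p ζ = (-1) ^ np p ((p + 9) / 10)) ∧
    (p % 40 = 29 → Sp p ζ = (-1) ^ np p ((p + 1) / 10) * ζ ^ 2) := by
  intro p hp ζ hζ
  have : Fact p.Prime := ⟨hp⟩
  have h5 := (prim_five hζ).2
  have hsign : ∀ a b m : ℕ, a + b = m + 1 → m % 2 = 0 → (-1 : ℂ) ^ b = -(-1) ^ a := by
    intro a b m h1 h2
    have h3 : (-1 : ℂ) ^ (a + b) = -1 := by
      rw [h1, pow_succ, (Nat.even_iff.2 h2).neg_one_pow]; norm_num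
    have h4 : (-1 : ℂ) ^ a * (-1) ^ a = 1 := by
      rw [← mul_pow]; norm_num
    rw [pow_add] at h3
    calc (-1 : ℂ) ^ b = ((-1) ^ a * (-1) ^ a) * (-1) ^ b := by rw [h4, one_mul]
      _ = (-1) ^ a * ((-1) ^ a * (-1) ^ b) := by ring
      _ = -(-1) ^ a := by rw [h3]; ring
  constructor
  · intro h
    rw [S_value (by omega) (by omega) hζ]
    have hc := cnt_np (p := p) (by omega) (by omega) (p / 10) rfl (by omega)
    have e1 : (p + 9) / 10 = p / 10 + 1 := by omega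
    rw [e1, hsign _ _ _ hc (by omega)]
    have e2 : (p - 1) / 4 = 5 * (2 * ((p - 21) / 40) + 1) := by omega
    rw [e2, pow_mul, h5, pow_succ, pow_mul]
    norm_num
  · intro h
    rw [S_value (by omega) (by omega) hζ]
    have hc := cnt_np (p := p) (by omega) (by omega) (p / 10) rfl (by omega)
    have e1 : (p + 1) / 10 = p / 10 + 1 := by omega
    rw [e1, hsign _ _ _ hc (by omega)]
    have e2 : (p - 1) / 4 = 5 * (2 * ((p - 29) / 40) + 1) + 2 := by omega
    rw [e2, pow_add, pow_mul, h5, pow_succ (-1 : ℂ) (2 * ((p - 29) / 40)), pow_mul]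
    norm_num
    ring

end Pool.Agent.Results.MP_10d431_nt.TenthRoots
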